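import Pool.Agent.helper41.LF.Main

/-!
Every 3-graph `H` with `n` vertices contains a linear 3-partite 3-graph with exactly `d` vertices
and at least `d ^ 2 / 100` edges, for every `3 ≤ d ≤ (e(H) / n ^ 3) * log n`.

Idea: sample three vectors `x, y, z` of `m = ⌊d / 3⌋` vertices with probability proportional to
`exp (lam * N)`, `N` the number of edges `x_i y_j z_k`.  Hoelder's inequality for `K_{m,m}` in each
of the three directions shows that for a suitable `lam ≤ 6 / (m * density)` all codegrees of the
sample are bounded in mean square, so that the sample (whose vertices are distinct with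
high probability) has a linear subgraph with at least `0.12 * m ^ 2` edges (Caro-Wei).
-/

namespace Pool.Agent.Results.MP_2cbaf2_co.DenseLogarithmic

/-- The 3-graph with vertex set `Fin d` and edge set `F` is admissible for `d`: every edge has
three elements; the vertices can be coloured with three colours such that every edge has exactly
one vertex of each colour; two distinct edges have at most one common vertex; and there are at
least `d ^ 2 / 100` edges. -/
def Admissible (d : ℕ) (F : Finset (Finset (Fin d))) : Prop :=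
  (∀ e ∈ F, e.card = 3) ∧
  (∃ χ : Fin d → Fin 3, ∀ e ∈ F, ∀ c : Fin 3, (e.filter fun v => χ v = c).card = 1) ∧
  (∀ e ∈ F, ∀ e' ∈ F, e ≠ e' → (e ∩ e').card ≤ 1) ∧
  (d : ℝ) ^ 2 / 100 ≤ (F.card : ℝ)

/-- Let `H` be a 3-graph with `n ≥ 1` vertices and let `3 ≤ d ≤ (e(H) / n ^ 3) * log n`.  Then `H`
contains a 3-graph which is admissible for `d`. -/
theorem result (n d : ℕ) (hn : 0 < n) (hd : 3 ≤ d)
    (H : Finset (Finset (Fin n))) (hH : ∀ e ∈ H, e.card = 3)
    (h : (d : ℝ) ≤ (H.card : ℝ) / (n : ℝ) ^ 3 * Real.log n) :
    ∃ F : Finset (Finset (Fin d)), Admissible d F ∧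
      ∃ φ : Fin d ↪ Fin n, ∀ e ∈ F, e.map φ ∈ H := by
  have hn3 : (0 : ℝ) < (n : ℝ) ^ 3 := by positivity
  refine Pool.Agent.helper41.LF.dense_log n d hn hd H hH ?_
  have h1 := mul_le_mul_of_nonneg_right h hn3.le
  have h2 : (H.card : ℝ) / (n : ℝ) ^ 3 * Real.log n * (n : ℝ) ^ 3 =
      (H.card : ℝ) * Real.log n := by
    field_simp
  rw [h2] at h1
  exact h1

end Pool.Agent.Results.MP_2cbaf2_co.DenseLogarithmic
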